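import Pool.Agent.N242.KB.Scale

/-!
# Project KB (helper242): the Voronoi cells form a tiling
-/

set_option autoImplicit false

open Metric Set Filter Topology

namespace Pool.Agent.N242.KB

universe u

variable {H : Type u} [NormedAddCommGroup H] [InnerProductSpace ℝ H]

omit [InnerProductSpace ℝ H] in
theorem vor_closed (G : Set H) (g : H) : IsClosed (Vor G g) := by
  have h1 : Vor G g = ⋂ h ∈ G, {x : H | ‖x - g‖ ≤ ‖x - h‖} := by
    ext x
    simp [Vor]
  rw [h1]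
  exact isClosed_biInter fun h _ => isClosed_le (by fun_prop) (by fun_prop)

theorem vor_convex (G : Set H) (g : H) : Convex ℝ (Vor G g) := by
  intro x hx y hy a b ha hb hab h hh
  have h1 := hx h hh
  have h2 := hy h hh
  rw [Pool.Agent.N281.KB.near_iff] at h1 h2 ⊢
  have h3 : a • x + b • y - g = a • (x - g) + b • (y - g) := by
    have : g = (a + b) • g := by rw [hab, one_smul]
    rw [smul_sub, smul_sub]
    nth_rewrite 1 [this]
    rw [add_smul]
    abel
  rw [h3, inner_add_right, real_inner_smul_right, real_inner_smul_right]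
  calc 2 * (a * inner ℝ (h - g) (x - g) + b * inner ℝ (h - g) (y - g))
      = a * (2 * inner ℝ (h - g) (x - g)) + b * (2 * inner ℝ (h - g) (y - g)) := by ring
    _ ≤ a * ‖h - g‖ ^ 2 + b * ‖h - g‖ ^ 2 :=
      add_le_add (mul_le_mul_of_nonneg_left h1 ha) (mul_le_mul_of_nonneg_left h2 hb)
    _ = ‖h - g‖ ^ 2 := by rw [← add_mul, hab, one_mul]

omit [InnerProductSpace ℝ H] in
theorem vor_bounded (G : Set H) (g : H) (R : ℝ) (hC : ∀ x, ∃ g ∈ G, ‖x - g‖ ≤ R) :
    Bornology.IsBounded (Vor G g) := by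
  refine (isBounded_closedBall (x := g) (r := R)).subset fun x hx => ?_
  obtain ⟨h, hh, h1⟩ := hC x
  rw [mem_closedBall, dist_eq_norm]
  exact (hx h hh).trans h1

omit [InnerProductSpace ℝ H] in
theorem vor_interior (G : Set H) (g : H) (hg : g ∈ G) (R : ℝ) (hR : 0 < R)
    (hS : ∀ g ∈ G, ∀ h ∈ G, g ≠ h → √2 * R ≤ ‖g - h‖) : (interior (Vor G g)).Nonempty := by
  have hs2 : (0 : ℝ) < √2 := Real.sqrt_pos.2 (by norm_num)
  refine ⟨g, ?_⟩
  rw [mem_interior_iff_mem_nhds, Metric.mem_nhds_iff]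
  refine ⟨√2 * R / 2, by positivity, fun x hx h hh => ?_⟩
  rw [mem_ball, dist_eq_norm] at hx
  by_cases hgh : g = h
  · rw [hgh]
  · have h1 := hS g hg h hh hgh
    have h2 : ‖g - h‖ ≤ ‖x - g‖ + ‖x - h‖ := by
      have h3 := norm_sub_le (x - h) (x - g)
      have h4 : x - h - (x - g) = g - h := by abel
      rw [h4] at h3
      linarith
    linarith

theorem vor_disjoint (G : Set H) (g h : H) (hg : g ∈ G) (hh : h ∈ G) (hgh : g ≠ h) :
    Disjoint (interior (Vor G g)) (interior (Vor G h)) := by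
  rw [Set.disjoint_left]
  intro x hx hx'
  rw [mem_interior_iff_mem_nhds, Metric.mem_nhds_iff] at hx hx'
  obtain ⟨ε, hε, h1⟩ := hx
  obtain ⟨ε', hε', h2⟩ := hx'
  have hn : 0 < ‖g - h‖ := norm_pos_iff.2 (sub_ne_zero.2 hgh)
  have heq : ∀ y, ‖y - x‖ < min ε ε' → ‖y - g‖ = ‖y - h‖ := by
    intro y hy
    refine le_antisymm (h1 ?_ h hh) (h2 ?_ g hg)
    · rw [mem_ball, dist_eq_norm]
      exact hy.trans_le (min_le_left _ _)
    · rw [mem_ball, dist_eq_norm]
      exact hy.trans_le (min_le_right _ _)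
  have hm : 0 < min ε ε' := lt_min hε hε'
  obtain ⟨t, htd⟩ : ∃ t : ℝ, t = min ε ε' / (2 * ‖g - h‖) := ⟨_, rfl⟩
  have ht : 0 < t := by rw [htd]; positivity
  have e1 := heq x (by rw [sub_self, norm_zero]; exact hm)
  have e2 := heq (x + t • (g - h)) (by
    rw [add_sub_cancel_left, norm_smul, Real.norm_of_nonneg ht.le, htd]
    rw [div_mul_eq_mul_div, div_lt_iff₀ (by positivity)]
    nlinarith)
  have e3 : x + t • (g - h) - g = (x - g) + t • (g - h) := by abel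
  have e4 : x + t • (g - h) - h = (x - h) + t • (g - h) := by abel
  have e5 : ‖x - g + t • (g - h)‖ ^ 2 = ‖x - h + t • (g - h)‖ ^ 2 := by
    rw [← e3, ← e4, e2]
  rw [norm_add_sq_real, norm_add_sq_real, e1, real_inner_smul_right, real_inner_smul_right] at e5
  have e6 : inner ℝ (x - h) (g - h) - inner ℝ (x - g) (g - h) = ‖g - h‖ ^ 2 := by
    rw [← inner_sub_left]
    have : x - h - (x - g) = g - h := by abel
    rw [this, real_inner_self_eq_norm_sq]
  have e7 : t * (inner ℝ (x - h) (g - h) - inner ℝ (x - g) (g - h)) = 0 := by linarith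
  rw [e6] at e7
  have : 0 < t * ‖g - h‖ ^ 2 := by positivity
  linarith

theorem vor_cover (G : Set H) (R : ℝ) (hR : 0 < R)
    (hS : ∀ g ∈ G, ∀ h ∈ G, g ≠ h → √2 * R ≤ ‖g - h‖) (hC : ∀ x, ∃ g ∈ G, ‖x - g‖ ≤ R) (x : H) :
    ∃ g ∈ G, x ∈ Vor G g := by
  by_cases hlt : ∃ g ∈ G, ‖x - g‖ < R
  · obtain ⟨g₀, hg₀, hlt⟩ := hlt
    have h0 := norm_nonneg (x - g₀)
    -- the rescaled set
    have hs : 0 < R⁻¹ := inv_pos.2 hR
    have hsep : Sep ((fun h => R⁻¹ • h) '' G) := by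
      rintro _ ⟨g, hg, rfl⟩ _ ⟨h, hh, rfl⟩ hne
      have hgh : g ≠ h := by
        rintro rfl
        exact hne rfl
      show √2 ≤ ‖R⁻¹ • g - R⁻¹ • h‖
      rw [← smul_sub, norm_smul, Real.norm_of_nonneg hs.le]
      have h1 := hS g hg h hh hgh
      rw [inv_mul_eq_div, le_div_iff₀ hR]
      exact h1
    obtain ⟨q, hq⟩ : ∃ q : ℝ, q = ‖x - g₀‖ / R := ⟨_, rfl⟩
    have hq0 : 0 ≤ q := by rw [hq]; positivity
    have hq1 : q < 1 := by rw [hq, div_lt_one hR]; exact hlt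
    have hf := Pool.Agent.N717.KB.t_KFI H _ hsep (R⁻¹ • x) (1 - q ^ 2) (by nlinarith)
    have hdist : ∀ h : H, ‖R⁻¹ • x - R⁻¹ • h‖ = ‖x - h‖ / R := fun h => by
      rw [← smul_sub, norm_smul, Real.norm_of_nonneg hs.le]
      ring
    have hf' : {g | g ∈ G ∧ ‖x - g‖ ≤ ‖x - g₀‖}.Finite := by
      refine Set.Finite.of_injOn (f := fun h => R⁻¹ • h) ?_
        (fun a _ b _ hab => smul_right_injective H hs.ne' hab) hf
      rintro g ⟨hg, hgg⟩
      refine ⟨⟨g, hg, rfl⟩, ?_⟩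
      rw [hdist]
      have h1 : ‖x - g‖ / R ≤ q := by
        rw [hq]
        exact div_le_div_of_nonneg_right hgg hR.le
      have h2 : 0 ≤ ‖x - g‖ / R := by positivity
      nlinarith
    obtain ⟨g, hg, hmin⟩ := Set.exists_min_image _ (fun g => ‖x - g‖) hf' ⟨g₀, hg₀, le_rfl⟩
    refine ⟨g, hg.1, fun h hh => ?_⟩
    by_cases hh' : ‖x - h‖ ≤ ‖x - g₀‖
    · exact hmin h ⟨hh, hh'⟩
    · exact (hmin g₀ ⟨hg₀, le_rfl⟩).trans (not_le.1 hh').le
  · push Not at hlt
    obtain ⟨g, hg, hg1⟩ := hC x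
    exact ⟨g, hg, fun h hh => hg1.trans (hlt h hh)⟩

end Pool.Agent.N242.KB
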