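import Pool.Agent.N242.KB.Stm
import Pool.Agent.N242.KW.Fin
import Pool.Agent.N242.KW.Act
import Pool.Agent.N242.KW.BND
import Pool.Agent.N242.KW.Conti
import Pool.Agent.N242.KW.STP
import Pool.Agent.N242.KW.GRD
import Pool.Agent.N242.KW.AWY
import Pool.Agent.N242.KW.BAI
import Pool.Agent.N242.KW.NRM

/-!
# Project KB (helper242): tilings of Klee type are not point-finite
-/

set_option autoImplicit false

open Metric Set Filter Topology

namespace Pool.Agent.N242.KB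

open Pool.Agent.N242.KW

universe u

theorem fin : S_FIN.{u} := by
  have h1 := Pool.Agent.N242.KW.P186.t_ACT.{u}
  have h2 := Pool.Agent.N242.KW.P143.t_BND.{u} h1
  have h3 := Pool.Agent.N242.KW.P935.t_CON.{u} h1 h2
  have h4 := Pool.Agent.N242.KW.P953.t_STP.{u} h1 h3
  have h5 := Pool.Agent.N242.KW.P749.t_GRD.{u} h1 h3 h4
  have h6 := Pool.Agent.N242.KW.P865.t_AWY.{u} h1 h3 h5
  have h7 := Pool.Agent.N242.KW.P933.t_BAI.{u} h1 h3 h5
  have h8 := Pool.Agent.N242.KW.P707.t_NRM.{u} h1 h2 h6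
  exact t_FIN h1 h3 h5 h7 (t_EXT h1 h4 h8)

theorem klee (hK : S_KFI.{u}) (H : Type u) [NormedAddCommGroup H] [InnerProductSpace ℝ H]
    [CompleteSpace H] (hinf : ¬ FiniteDimensional ℝ H) (G : Set H) (hS : Sep G)
    (hC : ∀ x, ∃ g ∈ G, ‖x - g‖ ≤ 1) : ∃ x, {g | g ∈ G ∧ x ∈ Vor G g}.Infinite := by
  by_contra hcon
  push Not at hcon
  have hcon' : ∀ x, {g | g ∈ G ∧ x ∈ Vor G g}.Finite := hcon
  have hval : ∀ (g x : H), val (g, (1 : ℝ)) x = 1 - ‖x - g‖ ^ 2 := fun g x => by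
    unfold val
    norm_num
  have hact : ∀ (x g : H), g ∈ G → x ∈ Vor G g → Act ((fun g => (g, (1 : ℝ))) '' G) x (g, 1) := by
    intro x g hg hx
    refine ⟨⟨g, hg, rfl⟩, ?_⟩
    rintro _ ⟨h, hh, rfl⟩
    show val (h, (1 : ℝ)) x ≤ _
    rw [hval, hval]
    have := pow_le_pow_left₀ (norm_nonneg _) (hx h hh) 2
    linarith
  refine fin H ((fun g => (g, (1 : ℝ))) '' G) hinf ⟨?_, ?_, ?_, ?_⟩
  · rintro _ ⟨g, -, rfl⟩
    exact one_pos
  · intro x
    -- a nearest point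
    obtain ⟨g, hg, hgx, hg1⟩ : ∃ g ∈ G, x ∈ Vor G g ∧ ‖x - g‖ ≤ 1 := by
      by_cases hlt : ∃ g ∈ G, ‖x - g‖ < 1
      · obtain ⟨g₀, hg₀, hlt⟩ := hlt
        have h0 := norm_nonneg (x - g₀)
        have hκ : 0 < 1 - ‖x - g₀‖ ^ 2 := by nlinarith
        have hf := hK H G hS x (1 - ‖x - g₀‖ ^ 2) hκ
        obtain ⟨g, hg, hmin⟩ := Set.exists_min_image _ (fun g => ‖x - g‖) hf
          ⟨g₀, hg₀, by linarith⟩
        have hgg : ‖x - g‖ ≤ ‖x - g₀‖ := hmin g₀ ⟨hg₀, by linarith⟩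
        refine ⟨g, hg.1, fun h hh => ?_, by linarith⟩
        by_cases hh' : ‖x - h‖ ^ 2 ≤ 1 - (1 - ‖x - g₀‖ ^ 2)
        · exact hmin h ⟨hh, hh'⟩
        · push Not at hh'
          have h1 := norm_nonneg (x - h)
          refine hgg.trans ?_
          by_contra hle
          push Not at hle
          nlinarith
      · push Not at hlt
        obtain ⟨g, hg, hg1⟩ := hC x
        exact ⟨g, hg, fun h hh => hg1.trans (hlt h hh), hg1⟩
    refine ⟨(g, 1), hact x g hg hgx, ?_⟩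
    rw [hval]
    have := norm_nonneg (x - g)
    nlinarith
  · intro x
    refine ((hcon' x).image fun g => (g, (1 : ℝ))).subset ?_
    rintro b ⟨⟨g, hg, rfl⟩, hb⟩
    refine ⟨g, ⟨hg, fun h hh => ?_⟩, rfl⟩
    have h1 := hb (h, 1) ⟨h, hh, rfl⟩
    have h2 : val (h, (1 : ℝ)) x ≤ val (g, (1 : ℝ)) x := h1
    rw [hval, hval] at h2
    have h3 := norm_nonneg (x - h)
    by_contra hle
    push Not at hle
    nlinarith
  · intro x κ hκ
    refine ((hK H G hS x κ hκ).image fun g => (g, (1 : ℝ))).subset ?_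
    rintro b ⟨⟨g, hg, rfl⟩, hb⟩
    have hb' : κ ≤ val (g, (1 : ℝ)) x := hb
    rw [hval] at hb'
    exact ⟨g, ⟨hg, by linarith⟩, rfl⟩

end Pool.Agent.N242.KB
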