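import Pool.Agent.N242.KB.Stm

/-!
# Project KB (helper242): points almost at distance `1` from infinitely many points
-/

set_option autoImplicit false

open Metric Set Filter Topology

namespace Pool.Agent.N242.KB

universe u

section

variable {H : Type u} [NormedAddCommGroup H] [InnerProductSpace ℝ H]

theorem sum_le (v : ℕ → H) (ε : ℝ) (h1 : ∀ j, ‖v j‖ ^ 2 ≤ 1 + ε)
    (h2 : ∀ i j, i ≠ j → inner ℝ (v i) (v j) ≤ ε) (n : ℕ) :
    ‖∑ i ∈ Finset.range n, v i‖ ^ 2 ≤ n * (1 + ε) + n * (n - 1) * ε := by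
  induction n with
  | zero => simp
  | succ n ih =>
    rw [Finset.sum_range_succ, norm_add_sq_real, sum_inner]
    have h3 : ∑ i ∈ Finset.range n, inner ℝ (v i) (v n) ≤ n * ε := by
      calc ∑ i ∈ Finset.range n, inner ℝ (v i) (v n) ≤ ∑ i ∈ Finset.range n, ε :=
            Finset.sum_le_sum fun i hi => h2 i n (Finset.mem_range.1 hi).ne
        _ = n * ε := by rw [Finset.sum_const, Finset.card_range, nsmul_eq_mul]
    have h4 := h1 n
    push_cast
    linarith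

end

theorem t_NEA : S_NEA.{u} := by
  intro H _ _ G hG x hx h hh
  by_contra hlt
  push Not at hlt
  have hs2' : √2 * √2 = 2 := Real.mul_self_sqrt (by norm_num)
  have hs2 : 0 ≤ √2 := Real.sqrt_nonneg 2
  obtain ⟨w, hw⟩ : ∃ w : H, w = h - x := ⟨_, rfl⟩
  have hwn : ‖w‖ < 1 := by rwa [hw, norm_sub_rev]
  have hw0 := norm_nonneg w
  obtain ⟨κ, hκd⟩ : ∃ κ : ℝ, κ = (1 - ‖w‖ ^ 2) / 4 := ⟨_, rfl⟩
  have hκ : 0 < κ := by rw [hκd]; nlinarith
  have hκ4 : κ ≤ 1 / 4 := by rw [hκd]; nlinarith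
  obtain ⟨n, hn⟩ := exists_nat_ge (2 / κ ^ 2)
  have hn2 : 2 ≤ n * κ ^ 2 := by
    rwa [div_le_iff₀ (by positivity)] at hn
  have hn0 : (0 : ℝ) < n := by
    have : (0 : ℝ) ≤ n := Nat.cast_nonneg n
    rcases this.eq_or_lt with h0 | h0
    · rw [← h0] at hn2
      norm_num at hn2
    · exact h0
  obtain ⟨ε, hεd⟩ : ∃ ε : ℝ, ε = 1 / (2 * (n + 1)) := ⟨_, rfl⟩
  have hε : 0 < ε := by rw [hεd]; positivity
  have hεn : ε * (n + 1) = 1 / 2 := by rw [hεd]; field_simp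
  have hε1 : ε ≤ 1 := by nlinarith
  have hεκ : ε ≤ 2 * κ := by
    have h1 : ε * (n * κ ^ 2) ≤ κ ^ 2 / 2 := by
      have : ε * n ≤ 1 / 2 := by linarith
      nlinarith [sq_nonneg κ]
    have h2 : ε * 2 ≤ ε * (n * κ ^ 2) := mul_le_mul_of_nonneg_left hn2 hε.le
    nlinarith
  -- the sequence
  have hinf : ({g | g ∈ G ∧ ‖x - g‖ < 1 + ε / 4} \ {h}).Infinite :=
    (hx (ε / 4) (by positivity)).sdiff (Set.finite_singleton h)
  obtain ⟨a, ha⟩ : ∃ a : ℕ → H, (∀ j, a j ∈ {g | g ∈ G ∧ ‖x - g‖ < 1 + ε / 4} \ {h}) ∧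
      Function.Injective a :=
    ⟨fun j => (hinf.natEmbedding _ j : H), fun j => (hinf.natEmbedding _ j).2,
      fun i j hij => (hinf.natEmbedding _).injective (Subtype.ext hij)⟩
  obtain ⟨ha1, ha2⟩ := ha
  have hv1 : ∀ j, ‖a j - x‖ ^ 2 ≤ 1 + ε := fun j => by
    have h1 := (ha1 j).1.2
    rw [norm_sub_rev] at h1
    have h2 := norm_nonneg (a j - x)
    nlinarith
  have hsq : ∀ g ∈ G, ∀ g' ∈ G, g ≠ g' → 2 ≤ ‖g - g'‖ ^ 2 := fun g hg g' hg' hne => by
    have h1 := hG g hg g' hg' hne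
    have h2 := mul_self_le_mul_self hs2 h1
    rw [hs2'] at h2
    rw [sq]
    exact h2
  have hv2 : ∀ i j, i ≠ j → inner ℝ (a i - x) (a j - x) ≤ ε := fun i j hij => by
    have h1 := hsq (a i) (ha1 i).1.1 (a j) (ha1 j).1.1 (fun h' => hij (ha2 h'))
    have h2 : a i - a j = (a i - x) - (a j - x) := by abel
    rw [h2, norm_sub_sq_real] at h1
    linarith [hv1 i, hv1 j]
  have hv3 : ∀ j, inner ℝ w (a j - x) ≤ -κ := fun j => by
    have h1 := hsq h hh (a j) (ha1 j).1.1 (fun h' => (ha1 j).2 h'.symm)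
    have h2 : h - a j = w - (a j - x) := by rw [hw]; abel
    rw [h2, norm_sub_sq_real] at h1
    have h3 : ‖w‖ ^ 2 = 1 - 4 * κ := by rw [hκd]; ring
    linarith [hv1 j]
  have hS := sum_le (fun j => a j - x) ε hv1 hv2 n
  have hwS : inner ℝ w (∑ i ∈ Finset.range n, (a i - x)) ≤ -(n * κ) := by
    rw [inner_sum]
    calc ∑ i ∈ Finset.range n, inner ℝ w (a i - x) ≤ ∑ i ∈ Finset.range n, -κ :=
          Finset.sum_le_sum fun i _ => hv3 i
      _ = -(n * κ) := by rw [Finset.sum_const, Finset.card_range, nsmul_eq_mul]; ring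
  have hfin : 0 ≤ ‖(n * κ) • w + ∑ i ∈ Finset.range n, (a i - x)‖ ^ 2 := by positivity
  rw [norm_add_sq_real, norm_smul, Real.norm_of_nonneg (by positivity), real_inner_smul_left,
    mul_pow] at hfin
  have h5 : (n * κ) * inner ℝ w (∑ i ∈ Finset.range n, (a i - x)) ≤ (n * κ) * -(n * κ) :=
    mul_le_mul_of_nonneg_left hwS (by positivity)
  have h6 : (n * κ) ^ 2 * ‖w‖ ^ 2 ≤ (n * κ) ^ 2 * 1 :=
    mul_le_mul_of_nonneg_left (by nlinarith) (by positivity)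
  have h7 : (n : ℝ) * (1 + ε) + n * (n - 1) * ε = n + n * (ε * n) := by ring
  have h8 : (n : ℝ) * (ε * n) ≤ n * (1 / 2) := mul_le_mul_of_nonneg_left (by linarith) hn0.le
  have h9 : 2 * (n : ℝ) ≤ (n * κ) ^ 2 := by
    have : (n * κ) ^ 2 = n * (n * κ ^ 2) := by ring
    rw [this]
    nlinarith
  nlinarith

end Pool.Agent.N242.KB
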