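import Mathlib
import Pool.Agent.N242.NT.Stm

/-!
# Project KB (helper242), MP_73700b_an

The tilings of Klee type of a Hilbert space (the Voronoi cells of a `√2`-separated set `G` such that
every point is at distance at most `1` from `G`) are not point-finite. The tilings of a Hilbert
space by unit balls of a norm `M`, `‖x‖ ≤ M x ≤ √2 ‖x‖`, are of Klee type.
-/

set_option autoImplicit false

open Metric Set Filter Topology

namespace Pool.Agent.N242.KB

open Pool.Agent.N242.NT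

universe u

section defs

variable {H : Type u} [NormedAddCommGroup H] [InnerProductSpace ℝ H]

/-- The set `G` is `√2`-separated. -/
def Sep (G : Set H) : Prop := ∀ g ∈ G, ∀ h ∈ G, g ≠ h → √2 ≤ ‖g - h‖

/-- The Voronoi cell of `g`. -/
def Vor (G : Set H) (g : H) : Set H := {x | ∀ h ∈ G, ‖x - g‖ ≤ ‖x - h‖}

end defs

/-- (KFI) A `√2`-separated set has finitely many points in a ball of radius less than `1`. -/
def S_KFI : Prop :=
  ∀ (H : Type u) [NormedAddCommGroup H] [InnerProductSpace ℝ H] (G : Set H), Sep G →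
    ∀ (x : H) (κ : ℝ), 0 < κ → {g | g ∈ G ∧ ‖x - g‖ ^ 2 ≤ 1 - κ}.Finite

/-- (NEA) If `x` is almost at distance `1` from infinitely many points of `G` then it is not at
distance less than `1` from `G`. -/
def S_NEA : Prop :=
  ∀ (H : Type u) [NormedAddCommGroup H] [InnerProductSpace ℝ H] (G : Set H), Sep G →
    ∀ x : H, (∀ ρ > 0, {g | g ∈ G ∧ ‖x - g‖ < 1 + ρ}.Infinite) → ∀ h ∈ G, 1 ≤ ‖x - h‖

/-- (EXY) A ball has a point, with prescribed values of finitely many functionals, at which it is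
not flat in finite codimension. -/
def S_EXY : Prop :=
  ∀ (X : Type u) [NormedAddCommGroup X] [NormedSpace ℝ X], KMP X → ¬ FiniteDimensional ℝ X →
    ∀ (c y : X) (r : ℝ), 0 < r → ‖y - c‖ ≤ r → ∀ F : Finset (X →L[ℝ] ℝ),
    ∃ z, ‖z - c‖ ≤ r ∧ (∀ f ∈ F, f z = f y) ∧
      ∀ (G : Finset (X →L[ℝ] ℝ)) (ε : ℝ), 0 < ε →
        ∃ v, (∀ f ∈ G, f v = 0) ∧ ‖v‖ ≤ ε ∧ ¬ ‖z + v - c‖ ≤ r

/-- (RIG) The tilings by unit balls of a norm `M` with `‖x‖ ≤ M x ≤ √2 ‖x‖` consist of Voronoi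
cells. -/
def S_RIG : Prop :=
  ∀ (H : Type u) [NormedAddCommGroup H] [InnerProductSpace ℝ H] [CompleteSpace H],
    ¬ FiniteDimensional ℝ H → ∀ M : Seminorm ℝ H, (∀ x, ‖x‖ ≤ M x ∧ M x ≤ √2 * ‖x‖) →
    ∀ G : Set H, (∀ g ∈ G, ∀ h ∈ G, g ≠ h → 2 ≤ M (g - h)) → (∀ x, ∃ g ∈ G, M (x - g) ≤ 1) →
    ∀ g ∈ G, ∀ x, M (x - g) ≤ 1 ↔ x ∈ Vor G g

end Pool.Agent.N242.KB
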