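import Pool.Agent.N242.KB.Klee
import Pool.Agent.N717.KB.KFI
import Pool.Agent.N163.KB.Exy
import Pool.Agent.N281.KB.RIG
import Pool.Agent.N242.KB.Nea
import Pool.Agent.N919.NT.SEP
import Pool.Agent.N713.NT.FLA
import Pool.Agent.N322.NT.REF
import Pool.Agent.N901.NT.HIL
import Pool.Agent.N701.NT.SEM

/-!
# Project KB (helper242): scaling, assembly
-/

set_option autoImplicit false

open Metric Set Filter Topology

namespace Pool.Agent.N242.KB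

universe u


theorem rig : S_RIG.{u} :=
  Pool.Agent.N281.KB.t_RIG t_NEA Pool.Agent.N163.KB.t_EXY
    (Pool.Agent.N713.NT.FLA.t_FLA Pool.Agent.N919.NT.t_SEP)
    (Pool.Agent.N901.NT.HIL.t_HIL Pool.Agent.N322.NT.t_REF) Pool.Agent.N701.NT.t_SEM

section scale

variable {H : Type u} [NormedAddCommGroup H] [InnerProductSpace ℝ H]

theorem mem_cell_iff (G : Set H) (g x : H) {s : ℝ} (hs : 0 < s) :
    x ∈ Vor G g ↔ s • x ∈ Vor ((fun h => s • h) '' G) (s • g) := by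
  have h1 : ∀ h : H, ‖s • x - s • h‖ = s * ‖x - h‖ := fun h => by
    rw [← smul_sub, norm_smul, Real.norm_of_nonneg hs.le]
  constructor
  · rintro hx _ ⟨h, hh, rfl⟩
    show ‖s • x - s • g‖ ≤ ‖s • x - s • h‖
    rw [h1, h1]
    exact mul_le_mul_of_nonneg_left (hx h hh) hs.le
  · intro hx h hh
    have h2 := hx (s • h) ⟨h, hh, rfl⟩
    rw [h1, h1] at h2
    exact le_of_mul_le_mul_left h2 hs

end scale

theorem voronoi (H : Type u) [NormedAddCommGroup H] [InnerProductSpace ℝ H] [CompleteSpace H]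
    (hinf : ¬ FiniteDimensional ℝ H) (G : Set H) (R : ℝ) (hR : 0 < R)
    (hS : ∀ g ∈ G, ∀ h ∈ G, g ≠ h → √2 * R ≤ ‖g - h‖) (hC : ∀ x, ∃ g ∈ G, ‖x - g‖ ≤ R) :
    ∃ x, {g | g ∈ G ∧ x ∈ Vor G g}.Infinite := by
  have hs : 0 < R⁻¹ := inv_pos.2 hR
  obtain ⟨y, hy⟩ := klee Pool.Agent.N717.KB.t_KFI H hinf ((fun h => R⁻¹ • h) '' G) (by
    rintro _ ⟨g, hg, rfl⟩ _ ⟨h, hh, rfl⟩ hne
    have hgh : g ≠ h := by
      rintro rfl
      exact hne rfl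
    show √2 ≤ ‖R⁻¹ • g - R⁻¹ • h‖
    rw [← smul_sub, norm_smul, Real.norm_of_nonneg hs.le]
    have h1 := hS g hg h hh hgh
    rw [inv_mul_eq_div, le_div_iff₀ hR]
    exact h1) (by
    intro x
    obtain ⟨g, hg, h1⟩ := hC (R • x)
    refine ⟨_, ⟨g, hg, rfl⟩, ?_⟩
    have h2 : x - R⁻¹ • g = R⁻¹ • (R • x - g) := by
      rw [smul_sub, smul_smul, inv_mul_cancel₀ hR.ne', one_smul]
    show ‖x - R⁻¹ • g‖ ≤ 1
    rw [h2, norm_smul, Real.norm_of_nonneg hs.le, inv_mul_le_iff₀ hR, mul_one]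
    exact h1)
  refine ⟨R • y, fun hfin => hy ?_⟩
  refine (hfin.image fun h => R⁻¹ • h).subset ?_
  rintro _ ⟨⟨g, hg, rfl⟩, hyg⟩
  refine ⟨g, ⟨hg, (mem_cell_iff G g (R • y) hs).2 ?_⟩, rfl⟩
  rw [smul_smul, inv_mul_cancel₀ hR.ne', one_smul]
  exact hyg

theorem rigid (H : Type u) [NormedAddCommGroup H] [InnerProductSpace ℝ H] [CompleteSpace H]
    (hinf : ¬ FiniteDimensional ℝ H) (M : Seminorm ℝ H) (c : ℝ) (hc : 0 < c)
    (hM : ∀ x, c * ‖x‖ ≤ M x ∧ M x ≤ √2 * c * ‖x‖) (r : ℝ) (hr : 0 < r) (G : Set H)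
    (hS : ∀ g ∈ G, ∀ h ∈ G, g ≠ h → 2 * r ≤ M (g - h)) (hC : ∀ x, ∃ g ∈ G, M (x - g) ≤ r) :
    ∀ g ∈ G, M.closedBall g r = Vor G g := by
  obtain ⟨s, hsd⟩ : ∃ s : ℝ, s = c / r := ⟨_, rfl⟩
  have hs : 0 < s := by rw [hsd]; positivity
  obtain ⟨M', hM'⟩ : ∃ M' : Seminorm ℝ H, ∀ x, M' x = c⁻¹ * M x := by
    refine ⟨M.comp (c⁻¹ • LinearMap.id), fun x => ?_⟩
    rw [Seminorm.comp_apply, LinearMap.smul_apply, LinearMap.id_apply, map_smul_eq_mul,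
      Real.norm_of_nonneg (inv_nonneg.2 hc.le)]
  have hMs : ∀ x y, M' (s • x - s • y) = M (x - y) / r := fun x y => by
    rw [hM', ← smul_sub, map_smul_eq_mul, Real.norm_of_nonneg hs.le, hsd]
    field_simp
  have h1 := rig H hinf M' (fun x => by
    rw [hM']
    obtain ⟨h1, h2⟩ := hM x
    constructor
    · rw [le_inv_mul_iff₀ hc]
      exact h1
    · rw [inv_mul_le_iff₀ hc]
      linarith) ((fun h => s • h) '' G) (by
    rintro _ ⟨g, hg, rfl⟩ _ ⟨h, hh, rfl⟩ hne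
    have hgh : g ≠ h := by
      rintro rfl
      exact hne rfl
    show 2 ≤ M' (s • g - s • h)
    rw [hMs, le_div_iff₀ hr]
    exact hS g hg h hh hgh) (by
    intro x
    obtain ⟨g, hg, h1⟩ := hC (s⁻¹ • x)
    refine ⟨_, ⟨g, hg, rfl⟩, ?_⟩
    have h2 : x = s • (s⁻¹ • x) := by rw [smul_smul, mul_inv_cancel₀ hs.ne', one_smul]
    show M' (x - s • g) ≤ 1
    rw [h2, hMs, div_le_one hr]
    exact h1)
  intro g hg
  ext x
  rw [Seminorm.mem_closedBall, mem_cell_iff G g x hs, ← h1 (s • g) ⟨g, hg, rfl⟩ (s • x), hMs,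
    div_le_one hr]


end Pool.Agent.N242.KB
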